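import Pool.Agent.H92.EQ.TF2

/-!
Row S1 of the board eqd (MP_75a732_an): the divergence identity.
-/

namespace Pool.Agent.H48.EQD

open scoped BigOperators ComplexConjugate ContDiff ComplexOrder
open Pool.Agent.H92.EQ

noncomputable section

section basic

variable {ι : Type} [Fintype ι] [DecidableEq ι]

theorem wd_sum {α : Type} (s : Finset α) (F : α → (ι → ℂ) → ℂ) (z : ι → ℂ) (a : ι)
    (h : ∀ i ∈ s, DifferentiableAt ℝ (F i) z) :
    wd a (fun w => ∑ i ∈ s, F i w) z = ∑ i ∈ s, wd a (F i) z := by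
  unfold wd
  rw [fderiv_fun_sum h, ← Finset.sum_div, Finset.sum_sub_distrib, ← Finset.mul_sum]
  simp only [ContinuousLinearMap.coe_sum', Finset.sum_apply]

theorem wdb_sum {α : Type} (s : Finset α) (F : α → (ι → ℂ) → ℂ) (z : ι → ℂ) (a : ι)
    (h : ∀ i ∈ s, DifferentiableAt ℝ (F i) z) :
    wdb a (fun w => ∑ i ∈ s, F i w) z = ∑ i ∈ s, wdb a (F i) z := by
  unfold wdb
  rw [fderiv_fun_sum h, ← Finset.sum_div, Finset.sum_add_distrib, ← Finset.mul_sum]
  simp only [ContinuousLinearMap.coe_sum', Finset.sum_apply]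

theorem wd_cmul (c : ℂ) (g : (ι → ℂ) → ℂ) (z : ι → ℂ) (a : ι)
    (h : DifferentiableAt ℝ g z) :
    wd a (fun w => c * g w) z = c * wd a g z := by
  unfold wd
  have h1 : fderiv ℝ (fun w => c * g w) z = c • fderiv ℝ g z := fderiv_const_mul h c
  rw [h1]
  simp only [ContinuousLinearMap.coe_smul', Pi.smul_apply, smul_eq_mul]
  ring

theorem wdb_cmul (c : ℂ) (g : (ι → ℂ) → ℂ) (z : ι → ℂ) (a : ι)
    (h : DifferentiableAt ℝ g z) :
    wdb a (fun w => c * g w) z = c * wdb a g z := by
  unfold wdb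
  have h1 : fderiv ℝ (fun w => c * g w) z = c • fderiv ℝ g z := fderiv_const_mul h c
  rw [h1]
  simp only [ContinuousLinearMap.coe_smul', Pi.smul_apply, smul_eq_mul]
  ring

/-- The equivalence sending the extra slot to `0`. -/
def phi (p : ℕ) : (Fin p ⊕ Fin (0 + 1)) ≃ Fin (p + 1) where
  toFun := Sum.elim Fin.succ (fun _ => 0)
  invFun := Fin.cons (α := fun _ => Fin p ⊕ Fin (0 + 1)) (Sum.inr 0) Sum.inl
  left_inv := by
    rintro (i | i)
    · simp
    · have : i = 0 := Fin.ext (by have := i.isLt; simp only [Fin.val_zero]; omega)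
      subst this
      simp
  right_inv := by
    intro i
    refine Fin.cases ?_ (fun j => ?_) i
    · simp
    · simp

theorem phi_inl (p : ℕ) (i : Fin p) : phi p (Sum.inl i) = i.succ := rfl

theorem phi_inr (p : ℕ) (i : Fin (0 + 1)) : phi p (Sum.inr i) = 0 := rfl

/-- The rotation of the equivalences. -/
def rot (p : ℕ) (j : Fin (p + 1)) (e : (Fin p ⊕ Fin (0 + 1)) ≃ ι) :
    (Fin p ⊕ Fin (0 + 1)) ≃ ι :=
  ((phi p).trans ((Fin.cycleRange j).symm.trans (phi p).symm)).trans e

theorem rot_inl (p : ℕ) (j : Fin (p + 1)) (e : (Fin p ⊕ Fin (0 + 1)) ≃ ι) (i : Fin p) :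
    rot p j e (Sum.inl i) = e ((phi p).symm (j.succAbove i)) := by
  simp only [rot, Equiv.trans_apply, phi_inl, Fin.cycleRange_symm_succ]

theorem rot_inr (p : ℕ) (j : Fin (p + 1)) (e : (Fin p ⊕ Fin (0 + 1)) ≃ ι) (i : Fin (0 + 1)) :
    rot p j e (Sum.inr i) = e ((phi p).symm j) := by
  simp only [rot, Equiv.trans_apply, phi_inr, Fin.cycleRange_symm_zero]

theorem rot_sign (p : ℕ) (j : Fin (p + 1)) (e e' : (Fin p ⊕ Fin (0 + 1)) ≃ ι) :
    Equiv.Perm.sign ((rot p j e).trans e'.symm) =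
      (-1) ^ (j : ℕ) * Equiv.Perm.sign (e.trans e'.symm) := by
  have h1 : (rot p j e).trans e'.symm =
      (e.trans e'.symm) * ((phi p).trans ((Fin.cycleRange j).symm.trans (phi p).symm)) := by
    ext x
    rfl
  have h2 : Equiv.Perm.sign ((phi p).trans ((Fin.cycleRange j).symm.trans (phi p).symm)) =
      (-1) ^ (j : ℕ) := by
    have h3 : (phi p).trans ((Fin.cycleRange j).symm.trans (phi p).symm) =
        (phi p).symm.permCongr (Fin.cycleRange j).symm := by
      ext x
      rfl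
    rw [h3, Equiv.Perm.sign_permCongr, Equiv.Perm.sign_symm, Fin.sign_cycleRange]
  rw [h1, Equiv.Perm.sign_mul, h2, mul_comm]

theorem rot_bij (p : ℕ) (j : Fin (p + 1)) :
    Function.Bijective (rot (ι := ι) p j) := by
  constructor
  · intro e f hef
    refine Equiv.ext fun x => ?_
    have h1 := DFunLike.congr_fun hef
      (((phi p).trans ((Fin.cycleRange j).symm.trans (phi p).symm)).symm x)
    have h2 : ∀ g : (Fin p ⊕ Fin (0 + 1)) ≃ ι, rot p j g
        (((phi p).trans ((Fin.cycleRange j).symm.trans (phi p).symm)).symm x) = g x := by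
      intro g
      show g (((phi p).trans ((Fin.cycleRange j).symm.trans (phi p).symm))
        (((phi p).trans ((Fin.cycleRange j).symm.trans (phi p).symm)).symm x)) = g x
      rw [Equiv.apply_symm_apply]
    rw [h2, h2] at h1
    exact h1
  · intro f
    refine ⟨((phi p).trans ((Fin.cycleRange j).symm.trans (phi p).symm)).symm.trans f, ?_⟩
    refine Equiv.ext fun x => ?_
    show f (((phi p).trans ((Fin.cycleRange j).symm.trans (phi p).symm)).symm
      (((phi p).trans ((Fin.cycleRange j).symm.trans (phi p).symm)) x)) = f x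
    rw [Equiv.symm_apply_apply]

/-- The alternating sum over all the equivalences. -/
theorem altsum (p : ℕ) (e' : (Fin p ⊕ Fin (0 + 1)) ≃ ι) (G : ι → (Fin p → ι) → ℂ)
    (hG : ∀ I : Fin (p + 1) → ι,
      ∑ j : Fin (p + 1), (-1 : ℂ) ^ (j : ℕ) * G (I j) (I ∘ j.succAbove) = 0) :
    ∑ e : (Fin p ⊕ Fin (0 + 1)) ≃ ι, ((Equiv.Perm.sign (e.trans e'.symm) : ℤ) : ℂ) *
      G (e (Sum.inr 0)) (fun i => e (Sum.inl i)) = 0 := by
  set F : ((Fin p ⊕ Fin (0 + 1)) ≃ ι) → ℂ := fun e =>
    ((Equiv.Perm.sign (e.trans e'.symm) : ℤ) : ℂ) *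
      G (e (Sum.inr 0)) (fun i => e (Sum.inl i)) with hF
  have h1 : ∀ j : Fin (p + 1), ∑ e, F (rot p j e) = ∑ e, F e := fun j =>
    Function.Bijective.sum_comp (rot_bij p j) F
  have h2 : ∑ j : Fin (p + 1), ∑ e, F (rot p j e) = 0 := by
    rw [Finset.sum_comm]
    refine Finset.sum_eq_zero fun e _ => ?_
    have h3 := hG (fun l => e ((phi p).symm l))
    have h4 : ∀ j : Fin (p + 1), F (rot p j e) =
        ((Equiv.Perm.sign (e.trans e'.symm) : ℤ) : ℂ) * ((-1 : ℂ) ^ (j : ℕ) *
          G ((fun l => e ((phi p).symm l)) j) ((fun l => e ((phi p).symm l)) ∘ j.succAbove)) := by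
      intro j
      simp only [hF, rot_inr, rot_sign]
      have h5 : (fun i => rot p j e (Sum.inl i)) =
          (fun l => e ((phi p).symm l)) ∘ j.succAbove := by
        funext i
        rw [rot_inl]
        rfl
      rw [h5]
      push_cast
      ring
    rw [Finset.sum_congr rfl fun j _ => h4 j, ← Finset.mul_sum, h3, mul_zero]
  have h6 : ((p : ℂ) + 1) * ∑ e, F e = 0 := by
    rw [Finset.sum_congr rfl fun j _ => h1 j, Finset.sum_const, Finset.card_univ,
      Fintype.card_fin, nsmul_eq_mul] at h2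
    push_cast at h2
    exact h2
  have h7 : (p : ℂ) + 1 ≠ 0 := by
    exact_mod_cast Nat.succ_ne_zero p
  exact (mul_eq_zero.1 h6).resolve_left h7

theorem sign_swap {p m : ℕ} (e e' : (Fin p ⊕ Fin m) ≃ ι) :
    Equiv.Perm.sign (e.trans e'.symm) = Equiv.Perm.sign (e'.trans e.symm) := by
  have h : e'.trans e.symm = (e.trans e'.symm).symm := by
    ext x
    rfl
  rw [h, Equiv.Perm.sign_symm]

end basic

/-- The case without further slots. -/
theorem s1_zero (h1 : T_W1) (h5 : T_W5) (h6 : T_W6)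
    (ι : Type) [Fintype ι] [DecidableEq ι] (p : ℕ) (U : Set (ι → ℂ)) (S : Form ι p)
    (f : (ι → ℂ) → ℂ) (v : Fin 0 → (ι → ℂ) → ℂ) (hU : IsOpen U) (hS : ClosedForm U S)
    (hf : ContDiffOn ℝ ∞ f U) (z : ι → ℂ) (hz : z ∈ U) :
    ∑ a, wd a (fun w => mixD (S w) (Fin.cons (α := fun _ => Matrix ι ι ℂ)
        (out (Pi.single a 1) (gdb f w)) (fun j => hess (v j) w))) z =
      mixD (S z) (Fin.cons (α := fun _ => Matrix ι ι ℂ) (hess f z) (fun j => hess (v j) z)) ∧
    ∑ a, wdb a (fun w => mixD (S w) (Fin.cons (α := fun _ => Matrix ι ι ℂ)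
        (out (gd f w) (Pi.single a 1)) (fun j => hess (v j) w))) z =
      mixD (S z) (Fin.cons (α := fun _ => Matrix ι ι ℂ) (hess f z) (fun j => hess (v j) z)) := by
  have hUz : U ∈ nhds z := hU.mem_nhds hz
  have hS1 : ∀ I J, DifferentiableAt ℝ (fun w => S w I J) z := fun I J =>
    ((hS.smooth I J).contDiffAt hUz).differentiableAt (by simp)
  have hf1 : ∀ a, DifferentiableAt ℝ (fun w => wd a f w) z := fun a =>
    ((h6 ι a f U hU hf).1.contDiffAt hUz).differentiableAt (by simp)
  have hf2 : ∀ a, DifferentiableAt ℝ (fun w => wdb a f w) z := fun a =>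
    ((h6 ι a f U hU hf).2.contDiffAt hUz).differentiableAt (by simp)
  have hf3 : ContDiffAt ℝ 2 f z := (hf.contDiffAt hUz).of_le (WithTop.coe_le_coe.2 le_top)
  have hR : mixD (S z) (Fin.cons (α := fun _ => Matrix ι ι ℂ) (hess f z)
      (fun j => hess (v j) z)) =
      ∑ e : (Fin p ⊕ Fin (0 + 1)) ≃ ι, ∑ e' : (Fin p ⊕ Fin (0 + 1)) ≃ ι,
        ((Equiv.Perm.sign (e.trans e'.symm) : ℤ) : ℂ) *
        (S z (fun i => e (Sum.inl i)) (fun i => e' (Sum.inl i)) *
          hess f z (e (Sum.inr 0)) (e' (Sum.inr 0))) := by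
    unfold mixD
    refine Finset.sum_congr rfl fun e _ => Finset.sum_congr rfl fun e' _ => ?_
    rw [Fin.prod_univ_succ, Fin.cons_zero, Fin.prod_univ_zero, mul_one, mul_assoc]
  rw [hR]
  constructor
  · have hL : ∀ a : ι, wd a (fun w => mixD (S w) (Fin.cons (α := fun _ => Matrix ι ι ℂ)
        (out (Pi.single a 1) (gdb f w)) (fun j => hess (v j) w))) z =
        ∑ e : (Fin p ⊕ Fin (0 + 1)) ≃ ι, ∑ e' : (Fin p ⊕ Fin (0 + 1)) ≃ ι,
          (if e (Sum.inr 0) = a then ((Equiv.Perm.sign (e.trans e'.symm) : ℤ) : ℂ) *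
            (S z (fun i => e (Sum.inl i)) (fun i => e' (Sum.inl i)) *
              wd a (fun w => wdb (e' (Sum.inr 0)) f w) z +
              wdb (e' (Sum.inr 0)) f z *
              wd a (fun w => S w (fun i => e (Sum.inl i)) (fun i => e' (Sum.inl i))) z)
            else 0) := by
      intro a
      have hfun : (fun w => mixD (S w) (Fin.cons (α := fun _ => Matrix ι ι ℂ)
          (out (Pi.single a 1) (gdb f w)) (fun j => hess (v j) w))) =
          fun w => ∑ e : (Fin p ⊕ Fin (0 + 1)) ≃ ι, ∑ e' : (Fin p ⊕ Fin (0 + 1)) ≃ ι,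
            ((if e (Sum.inr 0) = a then ((Equiv.Perm.sign (e.trans e'.symm) : ℤ) : ℂ) else 0) *
            (S w (fun i => e (Sum.inl i)) (fun i => e' (Sum.inl i)) *
              wdb (e' (Sum.inr 0)) f w)) := by
        funext w
        unfold mixD
        refine Finset.sum_congr rfl fun e _ => Finset.sum_congr rfl fun e' _ => ?_
        rw [Fin.prod_univ_succ, Fin.cons_zero, Fin.prod_univ_zero, mul_one]
        show _ * _ * ((Pi.single a (1 : ℂ) : ι → ℂ) (e (Sum.inr 0)) *
          wdb (e' (Sum.inr 0)) f w) = _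
        by_cases he : e (Sum.inr 0) = a
        · rw [if_pos he, he, Pi.single_eq_same]
          ring
        · rw [if_neg he, Pi.single_eq_of_ne he]
          ring
      rw [hfun, wd_sum]
      · refine Finset.sum_congr rfl fun e _ => ?_
        rw [wd_sum]
        · refine Finset.sum_congr rfl fun e' _ => ?_
          rw [wd_cmul _ _ _ _ ((hS1 _ _).fun_mul (hf2 _)),
            (h1 ι a (fun w => S w (fun i => e (Sum.inl i)) (fun i => e' (Sum.inl i)))
              (fun w => wdb (e' (Sum.inr 0)) f w) z (hS1 _ _) (hf2 _)).2.2.1]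
          split_ifs
          · rfl
          · rw [zero_mul]
        · intro e' _
          exact ((hS1 _ _).fun_mul (hf2 _)).const_mul _
      · intro e _
        refine DifferentiableAt.fun_sum fun e' _ => ?_
        exact ((hS1 _ _).fun_mul (hf2 _)).const_mul _
    rw [Finset.sum_congr rfl fun a _ => hL a, Finset.sum_comm]
    have hL2 : ∀ e : (Fin p ⊕ Fin (0 + 1)) ≃ ι,
        ∑ a : ι, ∑ e' : (Fin p ⊕ Fin (0 + 1)) ≃ ι,
          (if e (Sum.inr 0) = a then ((Equiv.Perm.sign (e.trans e'.symm) : ℤ) : ℂ) *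
            (S z (fun i => e (Sum.inl i)) (fun i => e' (Sum.inl i)) *
              wd a (fun w => wdb (e' (Sum.inr 0)) f w) z +
              wdb (e' (Sum.inr 0)) f z *
              wd a (fun w => S w (fun i => e (Sum.inl i)) (fun i => e' (Sum.inl i))) z)
            else 0) =
        ∑ e' : (Fin p ⊕ Fin (0 + 1)) ≃ ι, ((Equiv.Perm.sign (e.trans e'.symm) : ℤ) : ℂ) *
          (S z (fun i => e (Sum.inl i)) (fun i => e' (Sum.inl i)) *
              hess f z (e (Sum.inr 0)) (e' (Sum.inr 0))) +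
        ∑ e' : (Fin p ⊕ Fin (0 + 1)) ≃ ι, wdb (e' (Sum.inr 0)) f z *
          (((Equiv.Perm.sign (e.trans e'.symm) : ℤ) : ℂ) *
            wd (e (Sum.inr 0))
              (fun w => S w (fun i => e (Sum.inl i)) (fun i => e' (Sum.inl i))) z) := by
      intro e
      rw [Finset.sum_comm, ← Finset.sum_add_distrib]
      refine Finset.sum_congr rfl fun e' _ => ?_
      rw [Finset.sum_ite_eq, if_pos (Finset.mem_univ _)]
      unfold hess
      ring
    rw [Finset.sum_congr rfl fun e _ => hL2 e, Finset.sum_add_distrib]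
    have hz2 : ∑ e : (Fin p ⊕ Fin (0 + 1)) ≃ ι, ∑ e' : (Fin p ⊕ Fin (0 + 1)) ≃ ι,
        wdb (e' (Sum.inr 0)) f z * (((Equiv.Perm.sign (e.trans e'.symm) : ℤ) : ℂ) *
            wd (e (Sum.inr 0))
              (fun w => S w (fun i => e (Sum.inl i)) (fun i => e' (Sum.inl i))) z) = 0 := by
      rw [Finset.sum_comm]
      refine Finset.sum_eq_zero fun e' _ => ?_
      rw [← Finset.mul_sum]
      rw [altsum p e' (fun x I => wd x (fun w => S w I (fun i => e' (Sum.inl i))) z)
        (fun I => hS.closedL z hz I _), mul_zero]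
    rw [hz2, add_zero]
  · have hL : ∀ a : ι, wdb a (fun w => mixD (S w) (Fin.cons (α := fun _ => Matrix ι ι ℂ)
        (out (gd f w) (Pi.single a 1)) (fun j => hess (v j) w))) z =
        ∑ e : (Fin p ⊕ Fin (0 + 1)) ≃ ι, ∑ e' : (Fin p ⊕ Fin (0 + 1)) ≃ ι,
          (if e' (Sum.inr 0) = a then ((Equiv.Perm.sign (e.trans e'.symm) : ℤ) : ℂ) *
            (S z (fun i => e (Sum.inl i)) (fun i => e' (Sum.inl i)) *
              wdb a (fun w => wd (e (Sum.inr 0)) f w) z +
              wd (e (Sum.inr 0)) f z *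
              wdb a (fun w => S w (fun i => e (Sum.inl i)) (fun i => e' (Sum.inl i))) z)
            else 0) := by
      intro a
      have hfun : (fun w => mixD (S w) (Fin.cons (α := fun _ => Matrix ι ι ℂ)
          (out (gd f w) (Pi.single a 1)) (fun j => hess (v j) w))) =
          fun w => ∑ e : (Fin p ⊕ Fin (0 + 1)) ≃ ι, ∑ e' : (Fin p ⊕ Fin (0 + 1)) ≃ ι,
            ((if e' (Sum.inr 0) = a then ((Equiv.Perm.sign (e.trans e'.symm) : ℤ) : ℂ) else 0) *
            (S w (fun i => e (Sum.inl i)) (fun i => e' (Sum.inl i)) *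
              wd (e (Sum.inr 0)) f w)) := by
        funext w
        unfold mixD
        refine Finset.sum_congr rfl fun e _ => Finset.sum_congr rfl fun e' _ => ?_
        rw [Fin.prod_univ_succ, Fin.cons_zero, Fin.prod_univ_zero, mul_one]
        show _ * _ * (wd (e (Sum.inr 0)) f w *
          (Pi.single a (1 : ℂ) : ι → ℂ) (e' (Sum.inr 0))) = _
        by_cases he : e' (Sum.inr 0) = a
        · rw [if_pos he, he, Pi.single_eq_same]
          ring
        · rw [if_neg he, Pi.single_eq_of_ne he]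
          ring
      rw [hfun, wdb_sum]
      · refine Finset.sum_congr rfl fun e _ => ?_
        rw [wdb_sum]
        · refine Finset.sum_congr rfl fun e' _ => ?_
          rw [wdb_cmul _ _ _ _ ((hS1 _ _).fun_mul (hf1 _)),
            (h1 ι a (fun w => S w (fun i => e (Sum.inl i)) (fun i => e' (Sum.inl i)))
              (fun w => wd (e (Sum.inr 0)) f w) z (hS1 _ _) (hf1 _)).2.2.2.1]
          split_ifs
          · rfl
          · rw [zero_mul]
        · intro e' _
          exact ((hS1 _ _).fun_mul (hf1 _)).const_mul _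
      · intro e _
        refine DifferentiableAt.fun_sum fun e' _ => ?_
        exact ((hS1 _ _).fun_mul (hf1 _)).const_mul _
    rw [Finset.sum_congr rfl fun a _ => hL a, Finset.sum_comm]
    have hL2 : ∀ e : (Fin p ⊕ Fin (0 + 1)) ≃ ι,
        ∑ a : ι, ∑ e' : (Fin p ⊕ Fin (0 + 1)) ≃ ι,
          (if e' (Sum.inr 0) = a then ((Equiv.Perm.sign (e.trans e'.symm) : ℤ) : ℂ) *
            (S z (fun i => e (Sum.inl i)) (fun i => e' (Sum.inl i)) *
              wdb a (fun w => wd (e (Sum.inr 0)) f w) z +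
              wd (e (Sum.inr 0)) f z *
              wdb a (fun w => S w (fun i => e (Sum.inl i)) (fun i => e' (Sum.inl i))) z)
            else 0) =
        ∑ e' : (Fin p ⊕ Fin (0 + 1)) ≃ ι, ((Equiv.Perm.sign (e.trans e'.symm) : ℤ) : ℂ) *
          (S z (fun i => e (Sum.inl i)) (fun i => e' (Sum.inl i)) *
              hess f z (e (Sum.inr 0)) (e' (Sum.inr 0))) +
        wd (e (Sum.inr 0)) f z * ∑ e' : (Fin p ⊕ Fin (0 + 1)) ≃ ι,
          (((Equiv.Perm.sign (e'.trans e.symm) : ℤ) : ℂ) *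
            wdb (e' (Sum.inr 0))
              (fun w => S w (fun i => e (Sum.inl i)) (fun i => e' (Sum.inl i))) z) := by
      intro e
      rw [Finset.sum_comm, Finset.mul_sum, ← Finset.sum_add_distrib]
      refine Finset.sum_congr rfl fun e' _ => ?_
      rw [Finset.sum_ite_eq, if_pos (Finset.mem_univ _), ← sign_swap e e']
      have h7 := (h5 ι (e (Sum.inr 0)) (e' (Sum.inr 0)) f z hf3).2.2
      unfold hess
      rw [h7]
      ring
    rw [Finset.sum_congr rfl fun e _ => hL2 e, Finset.sum_add_distrib]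
    have hz2 : ∑ e : (Fin p ⊕ Fin (0 + 1)) ≃ ι,
        wd (e (Sum.inr 0)) f z * ∑ e' : (Fin p ⊕ Fin (0 + 1)) ≃ ι,
          (((Equiv.Perm.sign (e'.trans e.symm) : ℤ) : ℂ) *
            wdb (e' (Sum.inr 0))
              (fun w => S w (fun i => e (Sum.inl i)) (fun i => e' (Sum.inl i))) z) = 0 := by
      refine Finset.sum_eq_zero fun e _ => ?_
      rw [altsum p e (fun x J => wdb x (fun w => S w (fun i => e (Sum.inl i)) J) z)
        (fun J => hS.closedR z hz _ J), mul_zero]
    rw [hz2, add_zero]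

/-- Absorbing one slot. -/
theorem absorb (h2 : T_A2) (h3 : T_A3) (ι : Type) [Fintype ι] [DecidableEq ι] (p m : ℕ)
    (S : (Fin p → ι) → (Fin p → ι) → ℂ) (X : Matrix ι ι ℂ) (H : Fin (m + 1) → Matrix ι ι ℂ) :
    mixD S (Fin.cons (α := fun _ => Matrix ι ι ℂ) X H) =
      mixD (wedge S (H 0)) (Fin.cons (α := fun _ => Matrix ι ι ℂ) X (fun j => H j.succ)) := by
  rw [h3 ι p (m + 1) S (H 0)
    (Fin.cons (α := fun _ => Matrix ι ι ℂ) X (fun j : Fin m => H j.succ))]
  rw [← h2 ι p (m + 1 + 1) S (Fin.cons (α := fun _ => Matrix ι ι ℂ) X H)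
    (Equiv.swap 0 1)]
  congr 1
  funext j
  refine Fin.cases ?_ (fun i => ?_) j
  · rw [Equiv.swap_apply_left, Fin.cons_zero]
    have : (1 : Fin (m + 1 + 1)) = Fin.succ 0 := rfl
    rw [this, Fin.cons_succ]
  · rw [Fin.cons_succ]
    refine Fin.cases ?_ (fun l => ?_) i
    · have : Fin.succ (0 : Fin (m + 1)) = 1 := rfl
      rw [this, Equiv.swap_apply_right, Fin.cons_zero, Fin.cons_zero]
    · rw [Fin.cons_succ, Equiv.swap_apply_of_ne_of_ne, Fin.cons_succ]
      · exact Fin.succ_ne_zero _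
      · intro hh
        have h4 : (l.succ.succ : Fin (m + 1 + 1)) = Fin.succ 0 := hh
        exact Fin.succ_ne_zero _ (Fin.succ_injective _ h4)

/-- S1. -/
theorem s1 (hA2 : T_A2) (hA3 : T_A3) (hD3 : T_D3) (h1 : T_W1) (h5 : T_W5) (h6 : T_W6) :
    T_S1 := by
  intro ι _ _ p m
  induction m generalizing p with
  | zero =>
    intro U S f v hU hS hf hv z hz
    exact s1_zero h1 h5 h6 ι p U S f v hU hS hf z hz
  | succ m ih =>
    intro U S f v hU hS hf hv z hz
    have h7 := ih (p + 1) U (fun z => wedge (S z) (hess (v 0) z)) f (fun j => v j.succ) hU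
      (hD3 ι p U S (v 0) hU hS (hv 0)) hf (fun j => hv j.succ) z hz
    have h8 : ∀ (X : Matrix ι ι ℂ) (w : ι → ℂ),
        mixD (S w) (Fin.cons (α := fun _ => Matrix ι ι ℂ) X (fun j => hess (v j) w)) =
        mixD (wedge (S w) (hess (v 0) w)) (Fin.cons (α := fun _ => Matrix ι ι ℂ) X
          (fun j => hess (v j.succ) w)) := fun X w =>
      absorb hA2 hA3 ι p m (S w) X (fun j => hess (v j) w)
    simp only [h8]
    exact h7

end

end Pool.Agent.H48.EQD
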